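import Pool.Agent.Lib.MP_9ef6ec_co.Main

set_option autoImplicit false

open Polynomial

namespace Pool.Agent.Results.MP_9ef6ec_co.SeriesParallel

/-- A graph with vertex set `V` and edge set `E`: multiple edges are allowed, loops are not. -/
structure MGraph (V E : Type) where
  /-- the pair of ends of an edge -/
  ends : E → Sym2 V
  no_loops : ∀ e : E, ¬ (ends e).IsDiag

/-- The underlying simple graph (`u`, `v` adjacent when some edge joins them). -/
def MGraph.simple {V E : Type} (G : MGraph V E) : SimpleGraph V where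
  Adj u v := ∃ e : E, G.ends e = s(u, v)
  symm := ⟨fun u v => by
    rintro ⟨e, he⟩
    exact ⟨e, by rw [he, Sym2.eq_swap]⟩⟩
  loopless := ⟨fun u => by
    rintro ⟨e, he⟩
    exact G.no_loops e (by rw [he]; exact Sym2.mk_isDiag_iff.2 rfl)⟩

/-- `c` is a proper colouring: the two ends of every edge have different colours. -/
def MGraph.IsProper {V E : Type} (G : MGraph V E) {k : ℕ} (c : V → Fin k) : Prop :=
  ∀ (e : E) (u v : V), G.ends e = s(u, v) → c u ≠ c v

/-- `P` is the chromatic polynomial of `G`: for every positive integer `k` the value `P(k)` is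
the number of proper colourings with `k` colours. -/
def MGraph.IsChromaticPolynomial {V E : Type} (G : MGraph V E) (P : ℂ[X]) : Prop :=
  ∀ k : ℕ, 0 < k → P.eval (k : ℂ) = (Nat.card {c : V → Fin k // G.IsProper c} : ℂ)

/-- `G` has a `K_4` minor: there are four pairwise disjoint connected sets of vertices, each
two of them joined by an edge. -/
def MGraph.HasK4Minor {V E : Type} (G : MGraph V E) : Prop :=
  ∃ f : Fin 4 → Set V,
    (∀ i j, i ≠ j → Disjoint (f i) (f j)) ∧
    (∀ i, (G.simple.induce (f i)).Connected) ∧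
    (∀ i j, i ≠ j → ∃ u ∈ f i, ∃ v ∈ f j, ∃ e : E, G.ends e = s(u, v))

open Pool.Agent.Lib.MP_9ef6ec_co in
/-- **Main theorem.** Every finite loopless multigraph has a unique chromatic polynomial, and if
the graph is series-parallel (no `K_4` minor) this polynomial has no zero `q` with
`0 < |q - 1| < 5/27`. -/
theorem result : ∀ (V E : Type) [Finite V] [Finite E] (G : MGraph V E),
    ∃ P : ℂ[X], G.IsChromaticPolynomial P ∧
      (∀ P' : ℂ[X], G.IsChromaticPolynomial P' → P' = P) ∧
      (¬ G.HasK4Minor → ∀ q : ℂ, 0 < ‖q - 1‖ → ‖q - 1‖ < 5 / 27 → P.eval q ≠ 0) := by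
  classical
  intro V E _ _ G
  have : Fintype V := Fintype.ofFinite V
  obtain ⟨w, hw⟩ : ∃ w : Sym2 V → ℂ, w = fun e => if e ∈ G.simple.edgeSet then -1 else 0 :=
    ⟨_, rfl⟩
  have hcol : ∀ k : ℕ, (ZP w).eval (k : ℂ) = (Nat.card {c : V → Fin k // G.IsProper c} : ℂ) := by
    intro k
    rw [ZP_eval_nat]
    have h1 : ∀ σ : V → Fin k, FF w σ = if G.IsProper σ then 1 else 0 := by
      intro σ
      unfold FF
      split_ifs with h
      · apply Finset.prod_eq_one
        intro e _
        induction e using Sym2.ind with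
        | _ u v =>
          by_cases hd : (s(u, v).map σ).IsDiag
          · rw [if_pos hd, hw]
            have h2 : s(u, v) ∉ G.simple.edgeSet := by
              rintro ⟨e', he'⟩
              exact h e' u v he' ((mono_iff σ u v).1 hd)
            simp only [h2, if_false, add_zero]
          · rw [if_neg hd, add_zero]
      · unfold MGraph.IsProper at h
        push Not at h
        obtain ⟨e, u, v, he, huv⟩ := h
        refine Finset.prod_eq_zero (i := s(u, v)) ?_ ?_
        · simp only [offd, Finset.mem_filter, Finset.mem_univ, true_and]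
          rw [← he]
          exact G.no_loops e
        · have h2 : s(u, v) ∈ G.simple.edgeSet := ⟨e, he⟩
          rw [if_pos ((mono_iff σ u v).2 huv), hw]
          simp only [h2, if_true]
          norm_num
    simp_rw [h1]
    rw [Finset.sum_boole, Nat.card_eq_fintype_card, Fintype.card_subtype]
  refine ⟨ZP w, fun k _ => hcol k, ?_, ?_⟩
  · intro P' hP'
    apply Polynomial.eq_of_infinite_eval_eq
    apply Set.Infinite.mono (s := Set.range (fun n : ℕ => ((n + 1 : ℕ) : ℂ)))
    · rintro _ ⟨n, rfl⟩
      change P'.eval _ = (ZP w).eval _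
      rw [hP' (n + 1) (Nat.succ_pos n), hcol (n + 1)]
    · exact Set.infinite_range_of_injective fun a b h => by
        have h2 : (a + 1 : ℕ) = b + 1 := Nat.cast_injective h
        omega
  · intro hK q hq0 hq1
    obtain ⟨a, ha⟩ : ∃ a : ℂ, a = 1 - q := ⟨_, rfl⟩
    have hna : ‖a‖ = ‖q - 1‖ := by rw [ha, ← norm_neg]; congr 1; ring
    have ha0 : a ≠ 0 := by
      intro h
      rw [h, norm_zero] at hna
      linarith
    have ha1 : a ≠ 1 := by
      intro h
      rw [h, norm_one] at hna
      linarith
    obtain ⟨D, h0D, hmul, hprod, hlt, hinv⟩ := exists_region a ha0 (by rw [hna]; exact hq1)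
    have h0a : (0 : ℂ) ≠ a := Ne.symm ha0
    have hK' : ¬ HasK4 G.simple := fun ⟨f, h1, h2, h3⟩ => hK ⟨f, h1, h2, h3⟩
    have hmain := main_ind a ha0 ha1 D hmul hprod hlt hinv _ G.simple Finset.univ w le_rfl
      (fun _ _ => Finset.mem_univ _) hK'
      (by intro x y hxy; rw [hw]; simp [SimpleGraph.mem_edgeSet, hxy])
      (by
        intro x y hxy
        rw [hw]
        simp only [SimpleGraph.mem_edgeSet, hxy, if_true]
        norm_num
        exact ⟨h0D, h0a⟩)
    have hqa : 1 - a = q := by rw [ha]; ring
    rw [hqa] at hmain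
    exact hmain

end Pool.Agent.Results.MP_9ef6ec_co.SeriesParallel
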